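import Mathlib

/-!
# Regular polynomial maps over `ℚ` and real critical cycles at infinity: definitions (helper922)

The definitions follow the starting hand-in `MP_b15c9e_ag.CurvesOffCriticalCycles`.
-/

set_option autoImplicit false

open MvPolynomial

namespace Pool.Agent.U922.RC

variable {N : ℕ}

/-- The self-map of `ℚ^{N+1}` given by `N + 1` polynomials. -/
noncomputable def selfMap (f : Fin (N + 1) → MvPolynomial (Fin (N + 1)) ℚ) (x : Fin (N + 1) → ℚ) :
    Fin (N + 1) → ℚ :=
  fun i => eval x (f i)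

/-- The self-map of `E^{N+1}` given by the forms of degree `d`; `E = ℝ` or `E = ℂ`. -/
noncomputable def topMap {E : Type} [Field E] [Algebra ℚ E] (d : ℕ)
    (f : Fin (N + 1) → MvPolynomial (Fin (N + 1)) ℚ) (x : Fin (N + 1) → E) : Fin (N + 1) → E :=
  fun i => aeval x (homogeneousComponent d (f i))

/-- The common zeros of a set of complex polynomials. -/
def zeros (V : Set (MvPolynomial (Fin (N + 1)) ℂ)) : Set (Fin (N + 1) → ℂ) :=
  {z | ∀ g ∈ V, eval z g = 0}

/-- The zero set has dimension at most one: any two coordinates satisfy a polynomial equation. -/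
def DimLeOne (V : Set (MvPolynomial (Fin (N + 1)) ℂ)) : Prop :=
  ∀ i j, ∃ P : MvPolynomial (Fin 2) ℂ, P ≠ 0 ∧ ∀ z ∈ zeros V, eval ![z i, z j] P = 0

/-- Polynomials of degree at most `d` whose forms of degree `d` have no common complex zero but `0`. -/
def Regular (d : ℕ) (f : Fin (N + 1) → MvPolynomial (Fin (N + 1)) ℚ) : Prop :=
  (∀ i, (f i).totalDegree ≤ d) ∧ ∀ z : Fin (N + 1) → ℂ, topMap d f z = 0 → z = 0

/-- The vectors whose direction is a point at infinity of the zero set: the leading form of each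
polynomial vanishing on the zero set vanishes at `y`. -/
def AtInfinity (V : Set (MvPolynomial (Fin (N + 1)) ℂ)) (y : Fin (N + 1) → ℂ) : Prop :=
  ∀ g : MvPolynomial (Fin (N + 1)) ℂ, (∀ z ∈ zeros V, eval z g = 0) →
    eval y (homogeneousComponent g.totalDegree g) = 0

/-- The determinant of the matrix of the derivatives of the forms of degree `d` at a real point. -/
noncomputable def jacDet (d : ℕ) (f : Fin (N + 1) → MvPolynomial (Fin (N + 1)) ℚ)
    (y : Fin (N + 1) → ℝ) : ℝ :=
  (Matrix.of fun i j => aeval y (pderiv j (homogeneousComponent d (f i)))).det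

/-- No real point at infinity `[r]` of `V` is periodic under the map of `ℙ^N` given by the forms of degree `d`
with a critical point in its cycle. -/
def OffRealCriticalCycles (d : ℕ) (f : Fin (N + 1) → MvPolynomial (Fin (N + 1)) ℚ)
    (V : Set (MvPolynomial (Fin (N + 1)) ℂ)) : Prop :=
  ∀ r : Fin (N + 1) → ℝ, r ≠ 0 → AtInfinity V (fun i => (r i : ℂ)) → ∀ l ≥ 1, ∀ c : ℝ, c ≠ 0 →
    (topMap d f)^[l] r = c • r → ∀ t, jacDet d f ((topMap d f)^[t] r) ≠ 0

/-- The orbit of `a` has bounded denominators. -/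
def BoundedDenominators (f : Fin (N + 1) → MvPolynomial (Fin (N + 1)) ℚ) (a : Fin (N + 1) → ℚ) : Prop :=
  ∃ m : ℕ, m ≠ 0 ∧ ∀ n i, ∃ b : ℤ, (m : ℚ) * (selfMap f)^[n] a i = b

/-- The return set of the point `a`. -/
def returnSet (f : Fin (N + 1) → MvPolynomial (Fin (N + 1)) ℚ)
    (V : Set (MvPolynomial (Fin (N + 1)) ℂ)) (a : Fin (N + 1) → ℚ) : Set ℕ :=
  {n | (fun i => (((selfMap f)^[n] a i : ℚ) : ℂ)) ∈ zeros V}

/-- A finite union of arithmetic progressions `{a + k n}`, where `k = 0` is allowed. -/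
def FiniteUnionAP (A : Set ℕ) : Prop :=
  ∃ T : Finset (ℕ × ℕ), A = {n : ℕ | ∃ q ∈ T, ∃ m : ℕ, n = q.1 * m + q.2}

end Pool.Agent.U922.RC
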