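import Mathlib
import Pool.Agent.U922.RC.Defs

/-!
# A family of maps without real critical points at infinity (helper922)
-/

set_option autoImplicit false

open MvPolynomial

namespace Pool.Agent.U922.RC

variable {N : ℕ}

/-- the form `x_i³ + c x_i (x_0² + … + x_N²)` -/
noncomputable def cub (N c : ℕ) (i : Fin (N + 1)) : MvPolynomial (Fin (N + 1)) ℤ :=
  X i ^ 3 + C (c : ℤ) * X i * ∑ j, X j ^ 2

lemma cub_hom (c : ℕ) (i : Fin (N + 1)) : (cub N c i).IsHomogeneous 3 := by
  unfold cub
  apply IsHomogeneous.add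
  · simpa using (isHomogeneous_X ℤ i).pow 3
  · have h1 : (C (c : ℤ) * X i : MvPolynomial (Fin (N + 1)) ℤ).IsHomogeneous (0 + 1) :=
      (isHomogeneous_C _ _).mul (isHomogeneous_X ℤ i)
    have h2 : (∑ j, X j ^ 2 : MvPolynomial (Fin (N + 1)) ℤ).IsHomogeneous 2 := by
      apply IsHomogeneous.sum
      intro j _
      simpa using (isHomogeneous_X ℤ j).pow 2
    exact h1.mul h2

/-- the polynomials over `ℚ` -/
noncomputable def fam (N c : ℕ) (g : Fin (N + 1) → MvPolynomial (Fin (N + 1)) ℤ) (i : Fin (N + 1)) :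
    MvPolynomial (Fin (N + 1)) ℚ := map (Int.castRingHom ℚ) (cub N c i + g i)

lemma top_fam (c : ℕ) (g : Fin (N + 1) → MvPolynomial (Fin (N + 1)) ℤ) (hg : ∀ i, (g i).totalDegree < 3)
    (i : Fin (N + 1)) : homogeneousComponent 3 (fam N c g i) = map (Int.castRingHom ℚ) (cub N c i) := by
  unfold fam
  have h0 : homogeneousComponent 3 (cub N c i + g i) = cub N c i := by
    rw [map_add, homogeneousComponent_eq_zero 3 (g i) (hg i), add_zero,
      homogeneousComponent_of_mem (m := 3) (cub_hom c i), if_pos rfl]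
  conv_rhs => rw [← h0]
  ext κ
  rw [coeff_homogeneousComponent, coeff_map, coeff_map, coeff_homogeneousComponent]
  split_ifs
  · rfl
  · rw [map_zero]

lemma eval_cub {E : Type} [Field E] [Algebra ℚ E] (c : ℕ) (i : Fin (N + 1)) (x : Fin (N + 1) → E) :
    aeval x (map (Int.castRingHom ℚ) (cub N c i)) = x i ^ 3 + c * x i * ∑ j, x j ^ 2 := by
  unfold cub
  simp only [map_add, map_mul, map_pow, map_X, map_C, map_sum, aeval_X, aeval_C, Int.coe_castRingHom,
    Int.cast_natCast, map_natCast]

lemma regular_fam (c : ℕ) (g : Fin (N + 1) → MvPolynomial (Fin (N + 1)) ℤ) (hg : ∀ i, (g i).totalDegree < 3) :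
    Regular 3 (fam N c g) := by
  constructor
  · intro i
    have h1 : (cub N c i + g i).totalDegree ≤ 3 :=
      (totalDegree_add _ _).trans (max_le (cub_hom c i).totalDegree_le (hg i).le)
    refine le_trans ?_ h1
    unfold fam totalDegree
    rw [support_map_of_injective _ Int.cast_injective]
  · intro z hz
    have h1 : ∀ i, z i * (z i ^ 2 + c * ∑ j, z j ^ 2) = 0 := by
      intro i
      have h2 := congrFun hz i
      unfold topMap at h2
      rw [top_fam c g hg, eval_cub, Pi.zero_apply] at h2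
      rw [← h2]
      ring
    set s : ℂ := ∑ j, z j ^ 2 with hs
    -- `z_i² = - c s` or `z_i = 0`
    have h2 : ∀ i, z i ^ 2 = if z i = 0 then 0 else -(c * s) := by
      intro i
      split_ifs with h
      · rw [h]; ring
      · have := (mul_eq_zero.1 (h1 i)).resolve_left h
        linear_combination this
    have h3 : s = -((((Finset.univ.filter fun i => z i ≠ 0).card * c : ℕ) : ℂ) * s) := by
      conv_lhs => rw [hs]
      rw [Finset.sum_congr rfl fun i _ => h2 i]
      rw [Finset.sum_ite, Finset.sum_const_zero, zero_add, Finset.sum_const, nsmul_eq_mul]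
      push_cast
      ring
    have h4 : s = 0 := by
      have h5 : ((((Finset.univ.filter fun i => z i ≠ 0).card * c + 1 : ℕ) : ℂ)) * s = 0 := by
        push_cast
        push_cast at h3
        linear_combination h3
      rcases mul_eq_zero.1 h5 with h6 | h6
      · exact absurd h6 (Nat.cast_ne_zero.2 (Nat.succ_ne_zero _))
      · exact h6
    funext i
    have h5 := h2 i
    rw [h4, mul_zero, neg_zero, ite_self] at h5
    exact pow_eq_zero_iff (two_ne_zero) |>.1 h5

/-- the matrix of the derivatives is positive definite at the real points -/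
lemma jac_fam (c : ℕ) (hc : 1 ≤ c) (g : Fin (N + 1) → MvPolynomial (Fin (N + 1)) ℤ)
    (hg : ∀ i, (g i).totalDegree < 3) (x : Fin (N + 1) → ℝ) (hx : x ≠ 0) : jacDet 3 (fam N c g) x ≠ 0 := by
  classical
  have hent : ∀ i j, aeval x (pderiv j (homogeneousComponent 3 (fam N c g i))) =
      (if i = j then 3 * x i ^ 2 + c * ∑ l, x l ^ 2 else 0) + 2 * c * x i * x j := by
    intro i j
    rw [top_fam c g hg]
    unfold cub
    simp only [map_add, map_mul, map_pow, map_X, map_C, map_sum, Derivation.leibniz, Derivation.leibniz_pow,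
      pderiv_X, pderiv_C, aeval_X, aeval_C, smul_eq_mul, Int.coe_castRingHom, Int.cast_natCast, map_natCast,
      nsmul_eq_mul, map_one, mul_zero, zero_mul, add_zero, Pi.single_apply, Nat.cast_ofNat, map_ofNat]
    have h1 : ∀ l : Fin (N + 1), (aeval x) ((if l = j then (1 : MvPolynomial (Fin (N + 1)) ℚ) else 0)) =
        if l = j then (1 : ℝ) else 0 := by
      intro l
      split_ifs <;> simp
    simp only [h1, mul_ite, mul_one, mul_zero, Finset.sum_ite_eq', Finset.mem_univ, if_true]
    by_cases hij : i = j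
    · subst hij
      simp
      ring
    · simp [hij]
      ring
  obtain ⟨s, hs⟩ : ∃ s : ℝ, s = ∑ l, x l ^ 2 := ⟨_, rfl⟩
  have hent' : ∀ i j, aeval x (pderiv j (homogeneousComponent 3 (fam N c g i))) =
      (if i = j then 3 * x i ^ 2 + c * s else 0) + 2 * c * x i * x j := by
    intro i j
    rw [hent, hs]
  unfold jacDet
  intro hdet
  obtain ⟨v, hv, hMv⟩ := Matrix.exists_mulVec_eq_zero_iff.2 hdet
  obtain ⟨w, hw⟩ : ∃ w : ℝ, w = ∑ j, x j * v j := ⟨_, rfl⟩
  have h1 : ∑ i, v i * (Matrix.mulVec (Matrix.of fun i j =>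
      aeval x (pderiv j (homogeneousComponent 3 (fam N c g i)))) v) i = 0 := by
    rw [hMv]
    simp
  have h2 : ∀ i, (Matrix.mulVec (Matrix.of fun i j =>
      aeval x (pderiv j (homogeneousComponent 3 (fam N c g i)))) v) i =
      (3 * x i ^ 2 + c * s) * v i + 2 * c * x i * w := by
    intro i
    rw [Matrix.mulVec, dotProduct]
    calc ∑ j, (Matrix.of fun i j => aeval x (pderiv j (homogeneousComponent 3 (fam N c g i)))) i j * v j =
        ∑ j, ((if i = j then (3 * x i ^ 2 + c * s) * v j else 0) + 2 * c * x i * (x j * v j)) := by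
          apply Finset.sum_congr rfl
          intro j _
          rw [Matrix.of_apply, hent']
          split_ifs <;> ring
      _ = _ := by
          rw [Finset.sum_add_distrib, Finset.sum_ite_eq, if_pos (Finset.mem_univ _), ← Finset.mul_sum, ← hw]
  have h3 : ∑ i, v i * ((3 * x i ^ 2 + c * s) * v i + 2 * c * x i * w) =
      3 * ∑ i, (x i * v i) ^ 2 + c * s * ∑ i, v i ^ 2 + 2 * c * w * w := by
    calc ∑ i, v i * ((3 * x i ^ 2 + c * s) * v i + 2 * c * x i * w) =
        ∑ i, (3 * (x i * v i) ^ 2 + c * s * v i ^ 2 + 2 * c * w * (x i * v i)) := by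
          apply Finset.sum_congr rfl
          intro i _
          ring
      _ = _ := by
          rw [Finset.sum_add_distrib, Finset.sum_add_distrib, ← Finset.mul_sum, ← Finset.mul_sum, ← Finset.mul_sum, ← hw]
  rw [Finset.sum_congr rfl fun i _ => by rw [h2 i], h3] at h1
  have hc1 : (1 : ℝ) ≤ c := by exact_mod_cast hc
  have p1 : 0 ≤ ∑ i, (x i * v i) ^ 2 := Finset.sum_nonneg fun i _ => sq_nonneg _
  have pos : ∀ w : Fin (N + 1) → ℝ, w ≠ 0 → 0 < ∑ i, w i ^ 2 := by
    intro w hw
    obtain ⟨i, hi⟩ := Function.ne_iff.1 hw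
    rw [Pi.zero_apply] at hi
    exact Finset.sum_pos' (fun i _ => sq_nonneg _) ⟨i, Finset.mem_univ i, by positivity⟩
  have p2 : 0 < s := by rw [hs]; exact pos x hx
  have p3 := pos v hv
  have p4 : 0 < c * s * ∑ i, v i ^ 2 := by positivity
  have p5 : 0 ≤ 2 * c * w * w := by nlinarith [mul_self_nonneg w]
  linarith

end Pool.Agent.U922.RC
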