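import Mathlib

/-!
# Limits of rational points at an archimedean absolute value are real (helper922)
-/

set_option autoImplicit false

namespace Pool.Agent.U922.RC

open MvPolynomial Filter Topology

/-- the values of the rational polynomials at a limit of rational points are their values at a real point -/
theorem transfer {ι : Type} [Finite ι] {Ω : Type} [Field Ω] [Algebra ℚ Ω] (W : AbsoluteValue Ω ℝ)
    (hW : ∀ q : ℚ, W (algebraMap ℚ Ω q) = |(q : ℝ)|) (U : Ultrafilter ℕ) (q : ℕ → ι → ℚ) (z : ι → Ω)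
    (hz : ∀ i, Tendsto (fun n => W (algebraMap ℚ Ω (q n i) - z i)) U (𝓝 0)) :
    ∃ r : ι → ℝ, ∀ P : MvPolynomial ι ℚ, W (aeval z P) = |aeval r P| := by
  have := Fintype.ofFinite ι
  let iN : NormedField Ω := W.toNormedField
  have hnorm : ∀ a : Ω, ‖a‖ = W a := fun a => rfl
  -- real limits
  have hr : ∀ i, ∃ r : ℝ, Tendsto (fun n => ((q n i : ℚ) : ℝ)) U (𝓝 r) := by
    intro i
    have h1 : ∀ᶠ n in (U : Filter ℕ), ((q n i : ℚ) : ℝ) ∈ Set.Icc (-(W (z i) + 1)) (W (z i) + 1) := by
      filter_upwards [(hz i).eventually (gt_mem_nhds one_pos)] with n hn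
      have h2 : W (algebraMap ℚ Ω (q n i)) ≤ W (z i) + 1 := by
        have h3 := W.add_le (algebraMap ℚ Ω (q n i) - z i) (z i)
        rw [sub_add_cancel] at h3
        linarith
      rw [hW] at h2
      exact abs_le.1 h2
    obtain ⟨r, -, hr⟩ := isCompact_Icc.ultrafilter_le_nhds (U.map fun n => ((q n i : ℚ) : ℝ)) (by
      rw [le_principal_iff]
      exact h1)
    exact ⟨r, hr⟩
  choose r hr using hr
  refine ⟨r, fun P => ?_⟩
  have h1 : Tendsto (fun n => aeval (fun i => algebraMap ℚ Ω (q n i)) P) U (𝓝 (aeval z P)) := by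
    have h2 : Tendsto (fun n => fun i => algebraMap ℚ Ω (q n i)) U (𝓝 z) := by
      rw [tendsto_pi_nhds]
      intro i
      rw [tendsto_iff_norm_sub_tendsto_zero]
      exact hz i
    have h3 : Continuous fun w : ι → Ω => aeval w P := by
      have h4 : (fun w : ι → Ω => aeval w P) = fun w => eval w (map (algebraMap ℚ Ω) P) := by
        funext w
        rw [aeval_def, eval₂_eq_eval_map]
      rw [h4]
      exact MvPolynomial.continuous_eval _
    exact (h3.tendsto z).comp h2
  have h2 : Tendsto (fun n => aeval (fun i => ((q n i : ℚ) : ℝ)) P) U (𝓝 (aeval r P)) := by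
    have h2 : Tendsto (fun n => fun i => ((q n i : ℚ) : ℝ)) U (𝓝 r) := by
      rw [tendsto_pi_nhds]
      exact hr
    have h3 : Continuous fun w : ι → ℝ => aeval w P := by
      have h4 : (fun w : ι → ℝ => aeval w P) = fun w => eval w (map (algebraMap ℚ ℝ) P) := by
        funext w
        rw [aeval_def, eval₂_eq_eval_map]
      rw [h4]
      exact MvPolynomial.continuous_eval _
    exact (h3.tendsto r).comp h2
  have h3 : ∀ n, ‖aeval (fun i => algebraMap ℚ Ω (q n i)) P‖ = |aeval (fun i => ((q n i : ℚ) : ℝ)) P| := by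
    intro n
    have e1 : aeval (fun i => algebraMap ℚ Ω (q n i)) P = algebraMap ℚ Ω (aeval (q n) P) :=
      (comp_aeval_apply (q n) (Algebra.ofId ℚ Ω) P).symm
    have e2 : aeval (fun i => ((q n i : ℚ) : ℝ)) P = algebraMap ℚ ℝ (aeval (q n) P) :=
      (comp_aeval_apply (q n) (Algebra.ofId ℚ ℝ) P).symm
    rw [e1, e2, hnorm, hW]
    rfl
  have h4 := h1.norm
  simp only [h3] at h4
  exact tendsto_nhds_unique h4 h2.abs

end Pool.Agent.U922.RC
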