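import Mathlib
import Pool.Agent.U922.RC.Loc
import Pool.Agent.U922.RC.Tr

/-!
# Orbits over `ℚ` with bounded denominators: only real critical cycles matter (helper922)
-/

set_option autoImplicit false

namespace Pool.Agent.U922.RC

open MvPolynomial NumberField IsDedekindDomain Height Module Filter Topology Asymptotics
open Pool.Agent.W180.OP (Pl av)
open Pool.Agent.R847.SN Pool.Agent.R847.SB
open Pool.Agent.R847.HG (stepR stepR_map)

variable {N d : ℕ}

/-- the iterates on the generic point -/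
noncomputable def Phi (d : ℕ) (f : Fin (N + 1) → MvPolynomial (Fin (N + 1)) ℚ) (t : ℕ) :
    Fin (N + 1) → MvPolynomial (Fin (N + 1)) ℚ :=
  (stepR fun i => homogeneousComponent d (f i))^[t] X

lemma aeval_Phi {E : Type} [Field E] [Algebra ℚ E] (f : Fin (N + 1) → MvPolynomial (Fin (N + 1)) ℚ)
    (w : Fin (N + 1) → E) (t : ℕ) (i : Fin (N + 1)) : aeval w (Phi d f t i) = (Fs d f)^[t] w i := by
  have h := stepR_map (fun i => homogeneousComponent d (f i)) (aeval w : MvPolynomial (Fin (N + 1)) ℚ →ₐ[ℚ] E) X t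
  have h1 : (fun l => (aeval w : MvPolynomial (Fin (N + 1)) ℚ →ₐ[ℚ] E) (X l)) = w := by
    funext l
    exact aeval_X w l
  rw [h1] at h
  exact (congrFun h i).symm

/-- the determinant along the orbit of the generic point -/
noncomputable def Dp (d : ℕ) (f : Fin (N + 1) → MvPolynomial (Fin (N + 1)) ℚ) (t : ℕ) :
    MvPolynomial (Fin (N + 1)) ℚ := (Dm d f (Phi d f t)).det

lemma aeval_Dp {E : Type} [Field E] [Algebra ℚ E] (f : Fin (N + 1) → MvPolynomial (Fin (N + 1)) ℚ)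
    (w : Fin (N + 1) → E) (t : ℕ) : aeval w (Dp d f t) = (Dm d f ((Fs d f)^[t] w)).det := by
  unfold Dp
  have h1 := AlgHom.map_det (aeval w : MvPolynomial (Fin (N + 1)) ℚ →ₐ[ℚ] E) (Dm d f (Phi d f t))
  rw [h1]
  congr 1
  have h2 := Dm_map (aeval w : MvPolynomial (Fin (N + 1)) ℚ →ₐ[ℚ] E) d f (Phi d f t)
  have h3 : (fun i => (aeval w : MvPolynomial (Fin (N + 1)) ℚ →ₐ[ℚ] E) (Phi d f t i)) = (Fs d f)^[t] w :=
    funext fun i => aeval_Phi f w t i
  rw [h3] at h2
  exact h2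

/-- the cycle of a limit of rational directions -/
theorem cyc_real (f : Fin (N + 1) → MvPolynomial (Fin (N + 1)) ℚ)
    (V : Set (MvPolynomial (Fin (N + 1)) ℂ))
    (hper : ∀ r : Fin (N + 1) → ℝ, r ≠ 0 → AtInf V (fun i => (r i : ℂ)) → ∀ l ≥ 1, ∀ c : ℝ, c ≠ 0 →
      (Fs d f)^[l] r = c • r → ∀ i, (Dm d f ((Fs d f)^[i] r)).det ≠ 0)
    {Ω : Type} [Field Ω] [Algebra ℚ Ω]
    (W : AbsoluteValue Ω ℝ) (hW : ∀ q : ℚ, W (algebraMap ℚ Ω q) = |(q : ℝ)|)
    (U : Ultrafilter ℕ) (y : Fin (N + 1) → Ω) (i0 : Fin (N + 1)) (hi0 : y i0 ≠ 0)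
    (q : ℕ → Fin (N + 1) → ℚ)
    (hz : ∀ i, Tendsto (fun n => W (algebraMap ℚ Ω (q n i) - y i / y i0)) U (𝓝 0))
    (htop : ∀ g : MvPolynomial (Fin (N + 1)) ℂ, (∀ z, (∀ h ∈ V, eval z h = 0) → eval z g = 0) →
      ∀ φ : Module.Dual ℚ ℂ, aeval y (homogeneousComponent g.totalDegree (cmp φ g)) = 0)
    (l : ℕ) (hl : 1 ≤ l) (c : Ω) (hc : c ≠ 0) (hcy : (Fs d f)^[l] y = c • y) (i : ℕ) :
    (Dm d f ((Fs d f)^[i] y)).det ≠ 0 := by
  set u : Ω := (y i0)⁻¹ with hu
  have hu0 : u ≠ 0 := inv_ne_zero hi0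
  set z : Fin (N + 1) → Ω := u • y with hzdef
  have hzi : ∀ i, y i / y i0 = z i := by
    intro i
    rw [hzdef, Pi.smul_apply, smul_eq_mul, div_eq_inv_mul]
  simp only [hzi] at hz
  have hz0 : z i0 = 1 := by rw [← hzi, div_self hi0]
  have hyz : y = y i0 • z := by
    rw [hzdef, smul_smul, hu, mul_inv_cancel₀ hi0, one_smul]
  obtain ⟨r, hr⟩ := transfer W hW U q z hz
  have hiff : ∀ P : MvPolynomial (Fin (N + 1)) ℚ, aeval z P = 0 ↔ aeval r P = 0 := by
    intro P
    rw [← abs_eq_zero (a := aeval r P), ← hr P]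
    exact W.eq_zero.symm
  have hr0 : r i0 = 1 := by
    have h1 := (hiff (X i0 - 1)).1 (by rw [map_sub, aeval_X, map_one, hz0, sub_self])
    rw [map_sub, aeval_X, map_one] at h1
    linarith
  have hrne : r ≠ 0 := by
    intro h
    rw [h] at hr0
    simp at hr0
  have hinf : AtInf V (fun i => (r i : ℂ)) := by
    intro g hg
    have h1 := comp_zero (k := ℚ) (Complex.ofRealAm.restrictScalars ℚ) (homogeneousComponent g.totalDegree g) r (by
      intro φ
      rw [cmp_comp, ← hiff]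
      have h2 := htop g hg φ
      have h3 := Pool.Agent.R847.HG.aeval_scale (homogeneousComponent g.totalDegree (cmp φ g)) g.totalDegree
        (homogeneousComponent_isHomogeneous _ _) u y
      rw [h2, mul_zero] at h3
      exact h3)
    exact h1
  -- periodicity
  obtain ⟨c', hc', hcz⟩ : ∃ c' : Ω, c' ≠ 0 ∧ (Fs d f)^[l] z = c' • z := by
    refine ⟨u ^ d ^ l * c * y i0, mul_ne_zero (mul_ne_zero (pow_ne_zero _ hu0) hc) hi0, ?_⟩
    rw [hzdef, Fs_iter_smul, hcy, smul_smul, smul_smul]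
    congr 1
    rw [mul_assoc (u ^ d ^ l * c), hu, mul_inv_cancel₀ hi0, mul_one]
  have hcr : (Fs d f)^[l] r = ((Fs d f)^[l] r i0) • r := by
    funext i
    have h1 := (hiff (Phi d f l i - Phi d f l i0 * X i)).1 (by
      rw [map_sub, map_mul, aeval_X, aeval_Phi, aeval_Phi, hcz, Pi.smul_apply, Pi.smul_apply, smul_eq_mul,
        smul_eq_mul, hz0, mul_one, sub_self])
    rw [map_sub, map_mul, aeval_X, aeval_Phi, aeval_Phi] at h1
    rw [Pi.smul_apply, smul_eq_mul]
    linarith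
  have hc0 : (Fs d f)^[l] r i0 ≠ 0 := by
    intro h
    have h1 := (hiff (Phi d f l i0)).2 (by rw [aeval_Phi]; exact h)
    rw [aeval_Phi, hcz, Pi.smul_apply, smul_eq_mul, hz0, mul_one] at h1
    exact hc' h1
  have h1 := hper r hrne hinf l hl _ hc0 hcr i
  have h2 : (Dm d f ((Fs d f)^[i] z)).det ≠ 0 := by
    rw [← aeval_Dp]
    rw [← aeval_Dp] at h1
    exact fun h => h1 ((hiff _).1 h)
  rw [hyz, Fs_iter_smul, Dm_scale]
  exact mul_ne_zero (pow_ne_zero _ (pow_ne_zero _ hi0)) h2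

/-- the archimedean absolute value of `ℚ` -/
lemma av_inf (w : InfinitePlace ℚ) (q : ℚ) : av (Sum.inl w : Pl ℚ) q = |(q : ℝ)| := by
  show w q = |(q : ℝ)|
  rw [← InfinitePlace.norm_embedding_eq w q, eq_ratCast]
  rw [← Complex.ofReal_ratCast, Complex.norm_real, Real.norm_eq_abs]

/-- the orbit is bounded at the finite places -/
lemma av_fin (v : HeightOneSpectrum (𝓞 ℚ)) (x : ℕ → Fin (N + 1) → ℚ)
    (hden : ∃ m : ℕ, m ≠ 0 ∧ ∀ n i, ∃ a : ℤ, (m : ℚ) * x n i = a) :
    ∃ C : ℝ, ∀ n i, av (Sum.inr v : Pl ℚ) (x n i) < C := by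
  obtain ⟨m, hm, h⟩ := hden
  have hmQ : (m : ℚ) ≠ 0 := by exact_mod_cast hm
  refine ⟨av (Sum.inr v : Pl ℚ) ((m : ℚ)⁻¹) + 1, fun n i => ?_⟩
  obtain ⟨a, ha⟩ := h n i
  have h1 : x n i = (m : ℚ)⁻¹ * a := by
    rw [← ha]
    field_simp
  have h2 : av (Sum.inr v : Pl ℚ) (a : ℚ) ≤ 1 := by
    have h3 := Pool.Agent.Y742.SF.fv_int v (a : 𝓞 ℚ)
    have h4 : ((a : 𝓞 ℚ) : ℚ) = (a : ℚ) := by simp
    rw [h4] at h3
    exact h3
  rw [h1, map_mul]
  have h5 : 0 ≤ av (Sum.inr v : Pl ℚ) ((m : ℚ)⁻¹) := (av (Sum.inr v : Pl ℚ)).nonneg _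
  nlinarith [mul_le_mul_of_nonneg_left h2 h5]

/-- **orbits with bounded denominators** -/
theorem dml_real (hd : 2 ≤ d) (f : Fin (N + 1) → MvPolynomial (Fin (N + 1)) ℚ)
    (hdeg : ∀ i, (f i).totalDegree ≤ d) (hreg : Reg d f)
    (V : Set (MvPolynomial (Fin (N + 1)) ℂ))
    (hV : ∀ i j, ∃ P : MvPolynomial (Fin 2) ℂ, P ≠ 0 ∧
      ∀ z : Fin (N + 1) → ℂ, (∀ h ∈ V, eval z h = 0) → eval ![z i, z j] P = 0)
    (hper : ∀ r : Fin (N + 1) → ℝ, r ≠ 0 → AtInf V (fun i => (r i : ℂ)) → ∀ l ≥ 1, ∀ c : ℝ, c ≠ 0 →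
      (Fs d f)^[l] r = c • r → ∀ i, (Dm d f ((Fs d f)^[i] r)).det ≠ 0)
    (x : ℕ → Fin (N + 1) → ℚ) (hx : ∀ n i, x (n + 1) i = aeval (x n) (f i))
    (hden : ∃ m : ℕ, m ≠ 0 ∧ ∀ n i, ∃ a : ℤ, (m : ℚ) * x n i = a) :
    ∃ T : Finset (ℕ × ℕ), {n : ℕ | ∀ h ∈ V, eval (fun i => algebraMap ℚ ℂ (x n i)) h = 0} =
      {n : ℕ | ∃ q ∈ T, ∃ m : ℕ, n = q.1 * m + q.2} := by
  classical
  set Z : Set ℕ := {n : ℕ | ∀ h ∈ V, eval (fun i => algebraMap ℚ ℂ (x n i)) h = 0} with hZ
  apply Pool.Agent.R847.SG.compact_AP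
  intro U hU hZU
  by_cases hinj : Function.Injective x
  · have hpair : ∀ i j, ∃ P : MvPolynomial (Fin 2) ℚ, P ≠ 0 ∧
        ∀ᶠ n in U, aeval ![x n i, x n j] P = 0 := by
      intro i j
      obtain ⟨P, hP, hP0⟩ := hV i j
      obtain ⟨κ, hκ⟩ := MvPolynomial.support_nonempty.2 hP
      obtain ⟨φ, hφ⟩ : ∃ φ : Module.Dual ℚ ℂ, φ (coeff κ P) ≠ 0 := by
        by_contra hno
        push Not at hno
        exact (mem_support_iff.1 hκ) ((Module.forall_dual_apply_eq_zero_iff ℚ _).1 hno)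
      refine ⟨cmp φ P, ?_, ?_⟩
      · intro h0
        apply hφ
        rw [← coeff_cmp, h0, coeff_zero]
      · filter_upwards [hZU] with n hn
        have h1 := hP0 _ hn
        rw [aeval_cmp]
        have h2 : (fun e => algebraMap ℚ ℂ ((![x n i, x n j] : Fin 2 → ℚ) e)) =
            ![algebraMap ℚ ℂ (x n i), algebraMap ℚ ℂ (x n j)] := by
          funext e
          fin_cases e <;> rfl
        rw [h2, h1, map_zero]
    obtain ⟨G, hX, hlim, hbig⟩ := exists_globR hd hdeg hreg hx hinj hU hpair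
    have hdet : ∀ v : G.big, ∀ j, (Dm d f ((G.loc v).y j)).det ≠ 0 := by
      intro v j
      obtain ⟨l, hl, hPR⟩ := per_all G hX hd hreg v
      -- the place is archimedean
      obtain ⟨w, hw⟩ : ∃ w : InfinitePlace ℚ, (v : Pl ℚ) = Sum.inl w := by
        rcases hv : (v : Pl ℚ) with w | p
        · exact ⟨w, rfl⟩
        · exfalso
          obtain ⟨C, hC⟩ := av_fin p x hden
          have h1 := hbig v v.2 C
          obtain ⟨n, i, hi⟩ := h1.exists
          rw [hv] at hi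
          exact absurd (hC n i) (not_lt.2 hi)
      have hW := fun q : ℚ => ((G.hW v).1 q).trans (by rw [hw, av_inf] : av (v : Pl ℚ) q = |(q : ℝ)|)
      set L := G.loc v with hL
      obtain ⟨i0, hi0⟩ := Function.ne_iff.1 (L.hy0 0)
      rw [Pi.zero_apply] at hi0
      apply cyc_det f L.y L.hy l hl hPR
      intro c hc hcy i
      refine cyc_real f V hper (G.W v) hW U (L.y 0) i0 hi0 (fun n i' => x (n - 0) i' / x (n - 0) i0)
        (fun i' => hlim v 0 i0 i' hi0) ?_ l hl c hc hcy i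
      intro g hg φ
      have h1 := L.top 0 g.totalDegree (cmp φ g) (cmp_deg φ g) (by
        filter_upwards [hZU] with n hn
        rw [Nat.sub_zero, aeval_cmp, hg _ hn, map_zero])
      rwa [H_zero] at h1
    obtain ⟨l, hl, h⟩ := G.fin hd hreg 0 (fun v j _ => hdet v j)
    refine ⟨l, hl, ?_⟩
    filter_upwards [h] with n hn t g hg
    apply (Module.forall_dual_apply_eq_zero_iff ℚ _).1
    intro φ
    have h1 := hn t (cmp φ g) (by
      filter_upwards [hZU] with n' hn'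
      rw [aeval_cmp, hn' g hg, map_zero])
    rwa [aeval_cmp] at h1
  · -- a preperiodic orbit
    rw [Function.Injective] at hinj
    push Not at hinj
    obtain ⟨a, b, hab, hne⟩ := hinj
    have key : ∀ a b, a < b → x a = x b →
        ∃ r ≥ 1, ∀ᶠ n in U, ∀ t, n + r * t ∈ Z := by
      intro a b hlt hab
      have h1 : ∀ m, x (a + m) = x (b + m) := by
        intro m
        induction m with
        | zero => exact hab
        | succ m ih =>
          funext i
          rw [← add_assoc, ← add_assoc, hx, hx, ih]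
      have h2 : ∀ n ≥ a, ∀ t, x (n + (b - a) * t) = x n := by
        intro n hn t
        induction t with
        | zero => rfl
        | succ t ih =>
          rw [← ih]
          have h3 := h1 (n + (b - a) * t - a)
          have e1 : a + (n + (b - a) * t - a) = n + (b - a) * t := by
            generalize (b - a) * t = w
            omega
          have e2 : b + (n + (b - a) * t - a) = n + (b - a) * (t + 1) := by
            rw [mul_add, mul_one]
            generalize (b - a) * t = w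
            omega
          rw [e1, e2] at h3
          exact h3.symm
      refine ⟨b - a, by omega, ?_⟩
      have h3 : ∀ᶠ n in U, a ≤ n := hU (eventually_ge_atTop a)
      filter_upwards [h3, hZU] with n h4 h5 t g hg
      rw [h2 n h4 t]
      exact h5 g hg
    rcases lt_or_gt_of_ne hne with h | h
    · exact key a b h hab
    · exact key b a h hab.symm

end Pool.Agent.U922.RC
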