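import Mathlib
import Pool.Agent.U922.RC.Main
import Pool.Agent.U922.RC.Fam

/-!
# Integral points and real critical cycles: the main statements (helper922)
-/

set_option autoImplicit false

namespace Pool.Agent.U922.RC

open MvPolynomial
open Pool.Agent.R847.SN Pool.Agent.R847.SB

variable {N : ℕ}

lemma reg_of {k : Type} [Field k] [Algebra k ℂ] {d : ℕ} (f : Fin (N + 1) → MvPolynomial (Fin (N + 1)) k)
    (h : ∀ z : Fin (N + 1) → ℂ, (∀ i, aeval z (homogeneousComponent d (f i)) = 0) → z = 0) : Reg d f := by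
  intro z hz
  let σ : AlgebraicClosure k →ₐ[k] ℂ := IsAlgClosed.lift (M := ℂ) (R := k) (S := AlgebraicClosure k)
  have h1 := h (fun i => σ (z i)) (by
    intro i
    rw [← comp_aeval_apply _ σ, hz i, map_zero])
  funext i
  exact (map_eq_zero σ).1 (congrFun h1 i)

theorem main {d : ℕ} (hd : 2 ≤ d) (f : Fin (N + 1) → MvPolynomial (Fin (N + 1)) ℚ) (hf : Regular d f)
    (V : Set (MvPolynomial (Fin (N + 1)) ℂ)) (hV : DimLeOne V) (hper : OffRealCriticalCycles d f V)
    (a : Fin (N + 1) → ℚ) (ha : BoundedDenominators f a) : FiniteUnionAP (returnSet f V a) := by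
  have hreg : Reg d f := reg_of f fun z hz => hf.2 z (funext hz)
  obtain ⟨T, hT⟩ := dml_real hd f hf.1 hreg V hV hper (fun n => (selfMap f)^[n] a) (by
    intro n i
    rw [Function.iterate_succ_apply']
    rfl) ha
  refine ⟨T, ?_⟩
  rw [← hT]
  rfl

/-- no real critical points at infinity -/
theorem main_all {d : ℕ} (hd : 2 ≤ d) (f : Fin (N + 1) → MvPolynomial (Fin (N + 1)) ℚ) (hf : Regular d f)
    (hjac : ∀ r : Fin (N + 1) → ℝ, r ≠ 0 → jacDet d f r ≠ 0)
    (V : Set (MvPolynomial (Fin (N + 1)) ℂ)) (hV : DimLeOne V)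
    (a : Fin (N + 1) → ℚ) (ha : BoundedDenominators f a) : FiniteUnionAP (returnSet f V a) := by
  apply main hd f hf V hV _ a ha
  intro r hr _ l hl c hc hcr t
  apply hjac
  intro h0
  -- the iterates of a periodic point do not vanish
  have h1 : ∀ s, (topMap d f)^[t + s] r = 0 := by
    intro s
    induction s with
    | zero => exact h0
    | succ s ih =>
      rw [← add_assoc, Function.iterate_succ_apply', ih]
      funext i
      show aeval (0 : Fin (N + 1) → ℝ) (homogeneousComponent d (f i)) = 0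
      have h2 := Fs_smul (d := d) (E := ℝ) f 0 0
      rw [smul_zero, zero_pow (by omega : d ≠ 0), zero_smul] at h2
      exact congrFun h2 i
  have h2 : ∀ s, ∃ e : ℝ, e ≠ 0 ∧ (topMap d f)^[l * s] r = e • r := by
    intro s
    induction s with
    | zero => exact ⟨1, one_ne_zero, by simp⟩
    | succ s ih =>
      obtain ⟨e, he, h⟩ := ih
      refine ⟨e ^ d ^ l * c, mul_ne_zero (pow_ne_zero _ he) hc, ?_⟩
      have e1 : l * (s + 1) = l + l * s := by ring
      have h3 : (topMap d f)^[l] (e • r) = e ^ d ^ l • (topMap d f)^[l] r := Fs_iter_smul (d := d) f e r l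
      rw [e1, Function.iterate_add_apply, h, h3, hcr, smul_smul]
  obtain ⟨e, he, h⟩ := h2 t
  have h3 : t ≤ l * t := Nat.le_mul_of_pos_left t hl
  obtain ⟨s, hs⟩ := Nat.exists_eq_add_of_le h3
  rw [hs, h1 s] at h
  exact hr ((smul_eq_zero.1 h.symm).resolve_left he)

/-- integral polynomials and integral points -/
lemma bounded_int (g : Fin (N + 1) → MvPolynomial (Fin (N + 1)) ℤ) (a : Fin (N + 1) → ℤ) :
    BoundedDenominators (fun i => map (Int.castRingHom ℚ) (g i)) (fun i => (a i : ℚ)) := by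
  refine ⟨1, one_ne_zero, fun n => ?_⟩
  have h : ∀ n, ∃ b : Fin (N + 1) → ℤ, (selfMap fun i => map (Int.castRingHom ℚ) (g i))^[n] (fun i => (a i : ℚ)) =
      fun i => (b i : ℚ) := by
    intro n
    induction n with
    | zero => exact ⟨a, rfl⟩
    | succ n ih =>
      obtain ⟨b, hb⟩ := ih
      refine ⟨fun i => eval b (g i), ?_⟩
      rw [Function.iterate_succ_apply', hb]
      funext i
      show eval (fun i => (b i : ℚ)) (map (Int.castRingHom ℚ) (g i)) = _
      rw [eval_map]
      exact (eval₂_comp (Int.castRingHom ℚ) b (g i)).symm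
  obtain ⟨b, hb⟩ := h n
  intro i
  exact ⟨b i, by rw [hb]; simp⟩

/-- the family -/
theorem family (c : ℕ) (hc : 1 ≤ c) (g : Fin (N + 1) → MvPolynomial (Fin (N + 1)) ℤ)
    (hg : ∀ i, (g i).totalDegree ≤ 2) (V : Set (MvPolynomial (Fin (N + 1)) ℂ)) (hV : DimLeOne V)
    (a : Fin (N + 1) → ℤ) : FiniteUnionAP (returnSet (fam N c g) V fun i => (a i : ℚ)) := by
  have hg' : ∀ i, (g i).totalDegree < 3 := fun i => by have := hg i; omega
  exact main_all (by norm_num) _ (regular_fam c g hg') (jac_fam c hc g hg') V hV _ (bounded_int _ a)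

end Pool.Agent.U922.RC
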